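import Pool.Agent.Q283.PQ.Stm
import Pool.Agent.Q162.FT.KSL

/-! Project PQ (helper283), job IND: independence from the strict Selmer group. -/

set_option autoImplicit false

namespace Pool.Agent.Q275.PQ

open NumberField IsDedekindDomain WeierstrassCurve Pool.Agent.Q7.LK
open Pool.Agent.TH841.SH.D (Pt act)
open Pool.Agent.Q283.FT (crv Rt Cov HasN2 AX df)
open Pool.Agent.Q283.FG (Cx tc NoFour RX)
open Pool.Agent.Q283.PQ
open Pool.Agent.Q162.FT (pt pt_cases act_some crv_isR)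

section

variable {F : Type} [Field F] {e : Fin 3 → F}

/-- the class is functorial -/
theorem cx_act {L : Type} [Field L] [Algebra F L] {P : Pt (crv e) F} {a b : F} (h : Cx e F P a b) :
    Cx e L (act (crv e) (Algebra.ofId F L) P) (algebraMap F L a) (algebraMap F L b) := by
  obtain ⟨ha, hb, h⟩ := h
  have hinj : Function.Injective (algebraMap F L) := (algebraMap F L).injective
  refine ⟨(map_ne_zero _).2 ha, (map_ne_zero _).2 hb, ?_⟩
  have hsq : ∀ z : F, IsSquare z → IsSquare (algebraMap F L z) := fun z hz => hz.map (algebraMap F L)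
  rcases h with ⟨rfl, h1, h2⟩ | ⟨x, y, hn, rfl, h1, h2⟩
  · exact Or.inl ⟨map_zero _, hsq _ h1, hsq _ h2⟩
  · right
    refine ⟨algebraMap F L x, algebraMap F L y,
      (Affine.baseChange_nonsingular (crv e) (Algebra.ofId F L).injective ..).mpr hn, rfl, ?_, ?_⟩
    · rcases h1 with ⟨hx, h1⟩ | ⟨hx, h1⟩
      · left
        refine ⟨fun h => hx (hinj h), ?_⟩
        have := hsq _ h1
        rwa [map_mul, map_sub] at this
      · right
        refine ⟨congrArg (algebraMap F L) hx, ?_⟩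
        have := hsq _ h1
        rwa [map_mul] at this
    · rcases h2 with ⟨hx, h1⟩ | ⟨hx, h1⟩
      · left
        refine ⟨fun h => hx (hinj h), ?_⟩
        have := hsq _ h1
        rwa [map_mul, map_sub] at this
      · right
        refine ⟨congrArg (algebraMap F L) hx, ?_⟩
        have := hsq _ h1
        rwa [map_mul] at this

variable [NumberField F]

theorem ax_of (hAXP : Pool.Agent.Q283.FG.S_AXP) (he : Rt e) {P : Pt (crv e) F} {a b : F} (h : Cx e F P a b)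
    (v : HeightOneSpectrum (𝓞 F)) : AX v e a b :=
  ⟨h.1, h.2.1, (hAXP F e he (v.adicCompletion F) a b h.1 h.2.1).2 ⟨_, cx_act h⟩⟩

theorem rx_of (hAXP : Pool.Agent.Q283.FG.S_AXP) (he : Rt e) {P : Pt (crv e) F} {a b : F} (h : Cx e F P a b)
    (φ : F →+* ℝ) : RX φ e a b := by
  let _ : Algebra F ℝ := φ.toAlgebra
  obtain ⟨z, w, h1, h2, h3⟩ := (hAXP F e he ℝ a b h.1 h.2.1).2 ⟨_, cx_act h⟩
  exact ⟨h.1, h.2.1, z, w, h1, h2, h3⟩

theorem ato_of (hKUA : Pool.Agent.Q283.FG.S_KUA) (hKUB : Pool.Agent.Q283.FG.S_KUB) (he : Rt e)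
    {P : Pt (crv e) F} {a b : F} (h : Cx e F P a b) (v : HeightOneSpectrum (𝓞 F))
    (hv : ∃ x τ, IsOfFinAddOrder τ ∧
      act (crv e) (Algebra.ofId F (v.adicCompletion F)) P = (2 : ℕ) • x + τ) : ATo v e a b := by
  obtain ⟨x, τ, hτ, hx⟩ := hv
  have hK := hKUA F e he (v.adicCompletion F)
  obtain ⟨b1, b2, hb⟩ := hK.1 τ
  obtain ⟨c1, c2, hc⟩ := hK.1 x
  have h1 := hKUB F e he (v.adicCompletion F) x x c1 c2 c1 c2 hc hc
  have h2 := hKUB F e he (v.adicCompletion F) (x + x) τ _ _ _ _ h1 hb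
  have h3 : Cx e (v.adicCompletion F) (act (crv e) (Algebra.ofId F (v.adicCompletion F)) P)
      (algebraMap F _ a) (algebraMap F _ b) := cx_act h
  rw [hx, two_nsmul] at h3
  obtain ⟨⟨s, hs⟩, t, ht⟩ := hK.2.1 _ _ _ _ _ h2 h3
  have ha0 := h3.1
  have hb0 := h3.2.1
  have hc1 := hc.1
  have hc2 := hc.2.1
  have hb1 := hb.1
  have hb2 := hb.2.1
  have hs0 : s ≠ 0 := by
    rintro rfl
    rw [mul_zero, div_eq_zero_iff] at hs
    rcases hs with hs | hs
    · exact mul_ne_zero (mul_ne_zero hc1 hc1) hb1 hs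
    · exact ha0 hs
  have ht0 : t ≠ 0 := by
    rintro rfl
    rw [mul_zero, div_eq_zero_iff] at ht
    rcases ht with ht | ht
    · exact mul_ne_zero (mul_ne_zero hc2 hc2) hb2 ht
    · exact hb0 ht
  have h4 := hK.2.2.1 τ b1 b2 (c1 / s) (c2 / t) (div_ne_zero hc1 hs0) (div_ne_zero hc2 ht0) hb
  have e1 : b1 * (c1 / s) ^ 2 = algebraMap F _ a := by
    rw [div_eq_iff ha0] at hs
    field_simp
    linear_combination hs
  have e2 : b2 * (c2 / t) ^ 2 = algebraMap F _ b := by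
    rw [div_eq_iff hb0] at ht
    field_simp
    linear_combination ht
  rw [e1, e2] at h4
  exact ⟨h.1, h.2.1, τ, hτ, h4⟩

theorem srs_of (hKUA : Pool.Agent.Q283.FG.S_KUA) (hKUB : Pool.Agent.Q283.FG.S_KUB)
    (hAXP : Pool.Agent.Q283.FG.S_AXP) (he : Rt e)
    {P : Pt (crv e) F} {a b : F} (h : Cx e F P a b) (S : Set (HeightOneSpectrum (𝓞 F)))
    (hS : ∀ v ∈ S, ∃ x τ, IsOfFinAddOrder τ ∧
      act (crv e) (Algebra.ofId F (v.adicCompletion F)) P = (2 : ℕ) • x + τ) : SRS S e a b :=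
  ⟨fun v => ⟨fun hv => ato_of hKUA hKUB he h v (hS v hv), fun _ => ax_of hAXP he h v⟩, rx_of hAXP he h⟩

end

/-- the classes of the torsion points -/
def tp {F : Type} [Field F] (e : Fin 3 → F) : Fin 4 → F × F := Fin.cons (1, 1) (tc e)

theorem tp_ne {F : Type} [Field F] {e : Fin 3 → F} (he : Rt e) (hNF : NoFour e) :
    ∀ i j : Fin 4, i ≠ j → ¬ (IsSquare ((tp e i).1 * (tp e j).1) ∧ IsSquare ((tp e i).2 * (tp e j).2)) := by
  have h01 : e 0 ≠ e 1 := fun h => absurd (he.inj h) (by decide)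
  have h02 : e 0 ≠ e 2 := fun h => absurd (he.inj h) (by decide)
  have h12 : e 1 ≠ e 2 := fun h => absurd (he.inj h) (by decide)
  have d0 : df e 0 ≠ 0 := sub_ne_zero.2 h12
  have d1 : df e 1 ≠ 0 := sub_ne_zero.2 h02
  have d2 : df e 2 ≠ 0 := sub_ne_zero.2 h01
  obtain ⟨n1, n2, n3⟩ := hNF
  have hp : ∀ z : F, IsSquare z → IsPow 2 z := by
    rintro z ⟨w, rfl⟩
    exact ⟨w, (pow_two w).symm⟩
  have m1 : ¬ IsSquare (df e 1 * df e 2) := fun h => n1 (hp _ h)
  have m2 : ¬ IsSquare (-(df e 0 * df e 2)) := fun h => n2 (hp _ h)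
  have m3 : ¬ IsSquare (df e 0 * df e 1) := fun h => n3 (hp _ h)
  have hdiv : ∀ z w : F, w ≠ 0 → IsSquare (z * (w * w)) → IsSquare z := by
    rintro z w hw ⟨s, hs⟩
    exact ⟨s / w, by field_simp; linear_combination hs⟩
  have t0 : tp e 0 = (1, 1) := rfl
  have t1 : tp e 1 = (df e 1 * df e 2, df e 2) := rfl
  have t2 : tp e 2 = (-df e 2, -(df e 0 * df e 2)) := rfl
  have t3 : tp e 3 = (-df e 1, -df e 0) := rfl
  have key : ∀ i j : Fin 4, i < j →
      ¬ (IsSquare ((tp e i).1 * (tp e j).1) ∧ IsSquare ((tp e i).2 * (tp e j).2)) := by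
    intro i j hij
    fin_cases i <;> fin_cases j <;> simp at hij
    · rintro ⟨h1, h2⟩
      change IsSquare ((tp e 0).1 * (tp e 1).1) at h1
      rw [t0, t1] at h1
      simp only [one_mul] at h1
      exact m1 h1
    · rintro ⟨h1, h2⟩
      change IsSquare ((tp e 0).2 * (tp e 2).2) at h2
      rw [t0, t2] at h2
      simp only [one_mul] at h2
      exact m2 h2
    · rintro ⟨h1, h2⟩
      change IsSquare ((tp e 0).1 * (tp e 3).1) at h1
      change IsSquare ((tp e 0).2 * (tp e 3).2) at h2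
      rw [t0, t3] at h1 h2
      simp only [one_mul] at h1 h2
      have := h1.mul h2
      refine m3 ?_
      have h : df e 0 * df e 1 = -df e 1 * -df e 0 := by ring
      rw [h]
      exact this
    · rintro ⟨h1, h2⟩
      change IsSquare ((tp e 1).1 * (tp e 2).1) at h1
      change IsSquare ((tp e 1).2 * (tp e 2).2) at h2
      rw [t1, t2] at h1 h2
      simp only at h1 h2
      have h3 : IsSquare (-df e 1) := hdiv _ _ d2 (by
        have : -df e 1 * (df e 2 * df e 2) = df e 1 * df e 2 * -df e 2 := by ring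
        rw [this]; exact h1)
      have h4 : IsSquare (-df e 0) := hdiv _ _ d2 (by
        have : -df e 0 * (df e 2 * df e 2) = df e 2 * -(df e 0 * df e 2) := by ring
        rw [this]; exact h2)
      have := h3.mul h4
      refine m3 ?_
      have h : df e 0 * df e 1 = -df e 1 * -df e 0 := by ring
      rw [h]
      exact this
    · rintro ⟨h1, h2⟩
      change IsSquare ((tp e 1).1 * (tp e 3).1) at h1
      change IsSquare ((tp e 1).2 * (tp e 3).2) at h2
      rw [t1, t3] at h1 h2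
      simp only at h1 h2
      refine m2 ?_
      have h : -(df e 0 * df e 2) = df e 2 * -df e 0 := by ring
      rw [h]
      exact h2
    · rintro ⟨h1, h2⟩
      change IsSquare ((tp e 2).1 * (tp e 3).1) at h1
      rw [t2, t3] at h1
      simp only at h1
      refine m1 ?_
      have h : df e 1 * df e 2 = -df e 2 * -df e 1 := by ring
      rw [h]
      exact h1
  intro i j hij
  rcases lt_or_gt_of_ne hij with h | h
  · exact key i j h
  · rintro ⟨h1, h2⟩
    exact key j i h ⟨by rwa [mul_comm], by rwa [mul_comm]⟩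

/-- the torsion points -/
theorem tp_pt {F : Type} [Field F] [CharZero F] (hKUA : Pool.Agent.Q283.FG.S_KUA) {e : Fin 3 → F} (he : Rt e)
    (i : Fin 4) : ∃ T : Pt (crv e) F, T + T = 0 ∧ Cx e F T (tp e i).1 (tp e i).2 := by
  have hK := hKUA F e he F
  refine Fin.cases ⟨0, add_zero _, hK.2.2.2.1⟩ (fun l => ?_) i
  obtain ⟨h, hc⟩ := hK.2.2.2.2 l
  refine ⟨_, ?_, hc⟩
  let _ : DecidableEq F := Classical.decEq _
  exact ((crv_isR he F).add_self two_ne_zero h).2 rfl

theorem ind (hFSA : S_FSA) (hKUA : Pool.Agent.Q283.FG.S_KUA) (hKUB : Pool.Agent.Q283.FG.S_KUB)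
    (hKUC : Pool.Agent.Q283.FG.S_KUC) (hAXP : Pool.Agent.Q283.FG.S_AXP) (hMWR : Pool.Agent.Q283.FT.S_MWR) :
    S_IND := by
  intro F _ _ e he hNF S hN r P hP a ha
  by_contra hne
  obtain ⟨Q, hQ, hloc⟩ := hFSA (Pt (crv e) F) (hMWR F e he).1 S (fun v => Pt (crv e) (v.1.adicCompletion F))
    (fun v => act (crv e) (Algebra.ofId F (v.1.adicCompletion F))) r P hP a hne (fun v n => ha v.1 v.2 n)
  obtain ⟨a0, b0, hab⟩ := (hKUA F e he F).1 Q
  have hS : SRS S e a0 b0 := srs_of hKUA hKUB hAXP he hab S fun v hv => hloc ⟨v, hv⟩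
  have hT : ∀ j, SRS S e (tp e j).1 (tp e j).2 := by
    intro j
    obtain ⟨T, hT, hc⟩ := tp_pt hKUA he j
    refine srs_of hKUA hKUB hAXP he hc S fun v _ => ⟨0, _, ?_, by rw [smul_zero, zero_add]⟩
    rw [isOfFinAddOrder_iff_nsmul_eq_zero]
    refine ⟨2, by norm_num, ?_⟩
    rw [two_nsmul, ← map_add, hT, map_zero]
  obtain ⟨c, hcS, -, hc⟩ := hN
  choose ix hix using fun j => hc _ _ (hT j)
  obtain ⟨k, hk⟩ := hc _ _ hS
  have hc0 : ∀ i, (c i).1 ≠ 0 ∧ (c i).2 ≠ 0 := by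
    intro i
    obtain ⟨M, hM⟩ := Ideal.exists_maximal (𝓞 F)
    have hMb : M ≠ ⊥ := Ring.ne_bot_of_isMaximal_of_not_isField hM (RingOfIntegers.not_isField F)
    have h := (hcS i).1 ⟨M, hM.isPrime, hMb⟩
    by_cases hv : (⟨M, hM.isPrime, hMb⟩ : HeightOneSpectrum (𝓞 F)) ∈ S
    · exact ⟨(h.1 hv).1, (h.1 hv).2.1⟩
    · exact ⟨(h.2 hv).1, (h.2 hv).2.1⟩
  have hsq : ∀ s t c : F, c ≠ 0 → IsPow 2 (s / c) → IsPow 2 (t / c) → IsSquare (s * t) := by
    rintro s t c hc ⟨x, hx⟩ ⟨y, hy⟩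
    rw [div_eq_iff hc] at hx hy
    exact ⟨x * y * c, by rw [hx, hy]; ring⟩
  have hinj : Function.Injective ix := by
    intro i j hij
    by_contra hne'
    have h1 := hix i
    have h2 := hix j
    rw [hij] at h1
    exact tp_ne he hNF i j hne' ⟨hsq _ _ _ (hc0 _).1 h1.1 h2.1, hsq _ _ _ (hc0 _).2 h1.2 h2.2⟩
  obtain ⟨j, hj⟩ := (Finite.injective_iff_surjective.1 hinj) k
  obtain ⟨T, hT2, hTc⟩ := tp_pt hKUA he j
  have h1 := hKUB F e he F Q T _ _ _ _ hab hTc
  have h2 := hix j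
  rw [hj] at h2
  obtain ⟨R, hR⟩ := hKUC F e he F (Q + T) _ _ h1 (hsq _ _ _ (hc0 _).1 hk.1 h2.1) (hsq _ _ _ (hc0 _).2 hk.2 h2.2)
  have htor : IsOfFinAddOrder T := isOfFinAddOrder_iff_nsmul_eq_zero.2 ⟨2, by norm_num, by rw [two_nsmul, hT2]⟩
  refine hQ R (-T) htor.neg ?_
  rw [two_nsmul, ← hR]
  abel

end Pool.Agent.Q275.PQ
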